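import Pool.Agent.W186.AI.Spec

set_option autoImplicit false

namespace Pool.Agent.W469.AI.FPH

open Complex Filter Topology Metric Set
open scoped Real
open Pool.Agent.W186.AI

theorem main (h : S_FPL) : S_FPH := by
  intro M U w f hM hU hw hF hG hwM
  have hit : ∀ k, DifferentiableOn ℂ (fun x => it (f x) (w x) k) U := by
    intro k
    induction k with
    | zero => exact differentiableOn_const (c := (0 : ℂ))
    | succ k ih =>
      have hmap : MapsTo (fun x : ℂ => (x, it (f x) (w x) k)) U (U ×ˢ ball (0 : ℂ) 1) := by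
        intro x hx
        refine ⟨hx, ?_⟩
        have h1 := ((h M (f x) (w x) hM (hG x hx) (hwM x hx)).2.2.2.1 k).1
        simp only [mem_ball_zero_iff]
        linarith
      have hpair : DifferentiableOn ℂ (fun x : ℂ => (x, it (f x) (w x) k)) U :=
        differentiableOn_id.prodMk ih
      have hcomp := hF.comp hpair hmap
      exact hw.mul hcomp
  have hunif : TendstoUniformlyOn (fun (k : ℕ) (x : ℂ) => it (f x) (w x) k)
      (fun x => fp (f x) (w x)) atTop U := by
    rw [Metric.tendstoUniformlyOn_iff]
    intro ε hε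
    have h0 : Tendsto (fun k : ℕ => (1 / 2 : ℝ) ^ k) atTop (𝓝 0) :=
      tendsto_pow_atTop_nhds_zero_of_lt_one (by norm_num) (by norm_num)
    filter_upwards [h0.eventually (gt_mem_nhds hε)] with k hk x hx
    have h1 := ((h M (f x) (w x) hM (hG x hx) (hwM x hx)).2.2.2.1 k).2
    rw [dist_comm, dist_eq_norm]
    exact lt_of_le_of_lt h1 hk
  exact hunif.tendstoLocallyUniformlyOn.differentiableOn (Eventually.of_forall hit) hU

end Pool.Agent.W469.AI.FPH
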