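import Pool.Agent.W186.AI.Spec

set_option autoImplicit false

namespace Pool.Agent.W469.AI.FPL

open Complex Filter Topology Metric Set
open scoped Real
open Pool.Agent.W186.AI

theorem step {M : ℝ} {f : ℂ → ℂ} {w : ℂ} (hM : 1 ≤ M) (hf : Good M f) (hw : ‖w‖ * (2 * M) ≤ 1)
    (t : ℂ) (ht : ‖t‖ < 1) : ‖w * f t‖ ≤ 1 / 2 := by
  have h1 := hf.1 t (by simpa using ht)
  rw [norm_mul]
  have h2 : ‖w‖ * ‖f t‖ ≤ ‖w‖ * M := mul_le_mul_of_nonneg_left h1 (norm_nonneg _)
  nlinarith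

theorem lip {M : ℝ} {f : ℂ → ℂ} {w : ℂ} (hM : 1 ≤ M) (hf : Good M f) (hw : ‖w‖ * (2 * M) ≤ 1)
    (t u : ℂ) (ht : ‖t‖ < 1) (hu : ‖u‖ < 1) : ‖w * f t - w * f u‖ ≤ 1 / 2 * ‖t - u‖ := by
  have h1 := hf.2 t (by simpa using ht) u (by simpa using hu)
  rw [← mul_sub, norm_mul]
  have h2 : ‖w‖ * ‖f t - f u‖ ≤ ‖w‖ * (M * ‖t - u‖) := mul_le_mul_of_nonneg_left h1 (norm_nonneg _)
  have h3 : ‖w‖ * M ≤ 1 / 2 := by linarith
  have h4 : ‖w‖ * M * ‖t - u‖ ≤ 1 / 2 * ‖t - u‖ := mul_le_mul_of_nonneg_right h3 (norm_nonneg _)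
  calc ‖w‖ * ‖f t - f u‖ ≤ ‖w‖ * (M * ‖t - u‖) := h2
    _ = ‖w‖ * M * ‖t - u‖ := by ring
    _ ≤ _ := h4

theorem it_le {M : ℝ} {f : ℂ → ℂ} {w : ℂ} (hM : 1 ≤ M) (hf : Good M f) (hw : ‖w‖ * (2 * M) ≤ 1)
    (k : ℕ) : ‖it f w k‖ ≤ 1 / 2 := by
  induction k with
  | zero => simp [it]
  | succ k ih => exact step hM hf hw _ (by linarith)

theorem it_dist {M : ℝ} {f : ℂ → ℂ} {w : ℂ} (hM : 1 ≤ M) (hf : Good M f) (hw : ‖w‖ * (2 * M) ≤ 1)
    (k : ℕ) : dist (it f w k) (it f w (k + 1)) ≤ 1 / 2 * (1 / 2) ^ k := by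
  induction k with
  | zero =>
    have h := it_le hM hf hw 1
    rw [dist_comm, dist_eq_norm]
    have e : it f w 0 = 0 := rfl
    rw [e, sub_zero]
    simpa using h
  | succ k ih =>
    have h1 := it_le hM hf hw k
    have h2 := it_le hM hf hw (k + 1)
    have h3 := lip hM hf hw (it f w k) (it f w (k + 1)) (by linarith) (by linarith)
    rw [dist_eq_norm] at ih ⊢
    have e1 : it f w (k + 1) = w * f (it f w k) := rfl
    have e2 : it f w (k + 1 + 1) = w * f (it f w (k + 1)) := rfl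
    calc ‖it f w (k + 1) - it f w (k + 1 + 1)‖ = ‖w * f (it f w k) - w * f (it f w (k + 1))‖ := by
          rw [e2, ← e1]
      _ ≤ 1 / 2 * ‖it f w k - it f w (k + 1)‖ := h3
      _ ≤ 1 / 2 * (1 / 2 * (1 / 2) ^ k) := by linarith
      _ = 1 / 2 * (1 / 2) ^ (k + 1) := by ring

theorem it_lim {M : ℝ} {f : ℂ → ℂ} {w : ℂ} (hM : 1 ≤ M) (hf : Good M f) (hw : ‖w‖ * (2 * M) ≤ 1) :
    Tendsto (it f w) atTop (𝓝 (fp f w)) := by
  have hc : CauchySeq (it f w) :=
    cauchySeq_of_le_geometric (1 / 2) (1 / 2) (by norm_num) (it_dist hM hf hw)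
  exact tendsto_nhds_limUnder (cauchySeq_tendsto_of_complete hc)

theorem main : S_FPL := by
  intro M f w hM hf hw
  have hlim := it_lim hM hf hw
  have hfp : ‖fp f w‖ ≤ 1 / 2 :=
    le_of_tendsto hlim.norm (Eventually.of_forall fun k => it_le hM hf hw k)
  have hd : ∀ k, ‖it f w k - fp f w‖ ≤ (1 / 2) ^ k := by
    intro k
    have h := dist_le_of_le_geometric_of_tendsto (1 / 2 : ℝ) (1 / 2) (by norm_num)
      (it_dist hM hf hw) hlim k
    rw [dist_eq_norm] at h
    have e : (1 / 2 : ℝ) * (1 / 2) ^ k / (1 - 1 / 2) = (1 / 2) ^ k := by ring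
    rw [e] at h
    exact h
  have hfix : fp f w = w * f (fp f w) := by
    have h1 : Tendsto (fun k => it f w (k + 1)) atTop (𝓝 (fp f w)) :=
      hlim.comp (tendsto_add_atTop_nat 1)
    have h2 : Tendsto (fun k => it f w (k + 1)) atTop (𝓝 (w * f (fp f w))) := by
      rw [tendsto_iff_norm_sub_tendsto_zero]
      have h3 : ∀ k, ‖it f w (k + 1) - w * f (fp f w)‖ ≤ 1 / 2 * ‖it f w k - fp f w‖ := by
        intro k
        have h4 := it_le hM hf hw k
        exact lip hM hf hw (it f w k) (fp f w) (by linarith) (by linarith)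
      have h5 : Tendsto (fun k => 1 / 2 * ‖it f w k - fp f w‖) atTop (𝓝 0) := by
        have h6 := (tendsto_iff_norm_sub_tendsto_zero.1 hlim).const_mul (1 / 2 : ℝ)
        simpa using h6
      exact squeeze_zero (fun k => norm_nonneg _) h3 h5
    exact tendsto_nhds_unique h1 h2
  refine ⟨hfp, hfix, ?_, fun k => ⟨it_le hM hf hw k, hd k⟩, ?_⟩
  · intro t ht hft
    have h1 := lip hM hf hw t (fp f w) ht (by linarith)
    rw [← hft, ← hfix] at h1
    have h2 : ‖t - fp f w‖ = 0 := by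
      have := norm_nonneg (t - fp f w)
      linarith
    exact sub_eq_zero.1 (norm_eq_zero.1 h2)
  · intro h ε hh hε
    have hlim' := it_lim hM hh hw
    have hfp' : ‖fp h w‖ ≤ 1 / 2 :=
      le_of_tendsto hlim'.norm (Eventually.of_forall fun k => it_le hM hh hw k)
    have hfix' : fp h w = w * h (fp h w) := by
      have h1 : Tendsto (fun k => it h w (k + 1)) atTop (𝓝 (fp h w)) :=
        hlim'.comp (tendsto_add_atTop_nat 1)
      have h2 : Tendsto (fun k => it h w (k + 1)) atTop (𝓝 (w * h (fp h w))) := by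
        rw [tendsto_iff_norm_sub_tendsto_zero]
        have h3 : ∀ k, ‖it h w (k + 1) - w * h (fp h w)‖ ≤ 1 / 2 * ‖it h w k - fp h w‖ := by
          intro k
          have h4 := it_le hM hh hw k
          exact lip hM hh hw (it h w k) (fp h w) (by linarith) (by linarith)
        have h5 : Tendsto (fun k => 1 / 2 * ‖it h w k - fp h w‖) atTop (𝓝 0) := by
          have h6 := (tendsto_iff_norm_sub_tendsto_zero.1 hlim').const_mul (1 / 2 : ℝ)
          simpa using h6
        exact squeeze_zero (fun k => norm_nonneg _) h3 h5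
      exact tendsto_nhds_unique h1 h2
    have hlt : ‖fp f w‖ < 1 := by linarith
    have hlt' : ‖fp h w‖ < 1 := by linarith
    have h1 := lip hM hh hw (fp f w) (fp h w) hlt hlt'
    have h2 : ‖w * f (fp f w) - w * h (fp f w)‖ ≤ 1 / 2 * ε := by
      have h3 := hε (fp f w) (by simpa using hlt)
      rw [← mul_sub, norm_mul]
      have h4 : ‖w‖ ≤ 1 / 2 := by
        have := norm_nonneg w
        nlinarith
      exact mul_le_mul h4 h3 (norm_nonneg _) (by norm_num)
    have h5 : fp f w - fp h w = (w * f (fp f w) - w * h (fp f w)) +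
        (w * h (fp f w) - w * h (fp h w)) := by
      rw [← hfix, ← hfix']
      ring
    have h6 : ‖fp f w - fp h w‖ ≤ 1 / 2 * ε + 1 / 2 * ‖fp f w - fp h w‖ := by
      calc ‖fp f w - fp h w‖ = ‖(w * f (fp f w) - w * h (fp f w)) +
            (w * h (fp f w) - w * h (fp h w))‖ := by rw [← h5]
        _ ≤ _ := (norm_add_le _ _).trans (add_le_add h2 h1)
    linarith

end Pool.Agent.W469.AI.FPL
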